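import Pool.Agent.TH382.FO.Sum

/-!
# Fractions with a large power of `p` in the denominator
-/

set_option autoImplicit false

namespace Pool.Agent.TH382.FO

open Finset

/-- the product of the numbers `q - 1` for the prime factors `q ≠ p` of `a` -/
def lam (a p : ℕ) : ℕ := ∏ q ∈ a.primeFactors.erase p, (q - 1)

lemma lam_pos (a p : ℕ) : 0 < lam a p := by
  refine prod_pos fun q hq => ?_
  have := (Nat.prime_of_mem_primeFactors (mem_of_mem_erase hq)).two_le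
  omega

lemma dvd_step {a b p : ℕ} (hp : p.Prime) (ha : a ≠ 0) (hb : 2 ≤ b) {Q : ℕ} (hQ : 0 < Q)
    (hpQ : ¬ p ∣ Q) (hQa : ∀ q : ℕ, q.Prime → q ∣ Q → q ∣ a) {T : ℕ} (hT : lam a p * Q ∣ T) {n : ℕ}
    (hn : Q ≤ n) : Q ∣ b ^ n * (b ^ T - 1) := by
  rw [Nat.dvd_iff_prime_pow_dvd_dvd]
  intro q f hq hf
  rcases Nat.eq_zero_or_pos f with rfl | hf0
  · simp
  have hqQ : q ∣ Q := (dvd_pow_self q hf0.ne').trans hf
  by_cases hqb : q ∣ b
  · have h1 : f ≤ Q := (Nat.lt_pow_self hq.one_lt).le.trans (Nat.le_of_dvd hQ hf)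
    exact ((pow_dvd_pow_of_dvd hqb f).trans (pow_dvd_pow b (h1.trans hn))).mul_right _
  · refine Dvd.dvd.mul_left ?_ _
    have hcop : Nat.Coprime b (q ^ f) :=
      Nat.Coprime.pow_right f ((Nat.Prime.coprime_iff_not_dvd hq).2 hqb).symm
    have h1 : b ^ (q ^ f).totient ≡ 1 [MOD q ^ f] := Nat.ModEq.pow_totient hcop
    have h2 : (q ^ f).totient ∣ T := by
      refine Dvd.dvd.trans ?_ hT
      rw [Nat.totient_prime_pow hq hf0, mul_comm]
      refine Nat.mul_dvd_mul ?_ ((pow_dvd_pow q (by omega)).trans hf)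
      refine dvd_prod_of_mem (fun q => q - 1) ?_
      rw [mem_erase, Nat.mem_primeFactors]
      refine ⟨?_, hq, hQa q hq hqQ, ha⟩
      rintro rfl
      exact hpQ hqQ
    obtain ⟨k, rfl⟩ := h2
    have h3 := h1.pow k
    rw [← pow_mul, one_pow] at h3
    exact (Nat.modEq_iff_dvd' (Nat.one_le_pow _ _ (by omega))).1 h3.symm

/-- **Bounded sums for all fractions with a large power of `p` in the denominator**: only the power of
`p` has to be large, the rest of the denominator is arbitrary (composed of primes of `a`). -/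
theorem arith {a b p : ℕ} (ha : a ≠ 0) (hp : p.Prime) (hpb : ¬ p ∣ b) (hb : 2 ≤ b) :
    ∃ s : ℕ, ∀ (M Q : ℕ) (u : ℤ), s < M → 0 < Q → ¬ p ∣ Q →
      (∀ q : ℕ, q.Prime → q ∣ Q → q ∣ a) → ¬ (p : ℤ) ∣ u →
      ∃ C : ℝ, ∀ N : ℕ, ‖∑ n ∈ range N, e ((b : ℝ) ^ n * ((u : ℝ) / ((p : ℝ) ^ M * Q)))‖ ≤ C := by
  obtain ⟨hB1, hB4, hB2⟩ := base_one hp hpb hb
  set B : ℤ := (b : ℤ) ^ (2 * (p - 1)) with hB
  have hpint : Prime (p : ℤ) := Nat.prime_iff_prime_int.1 hp
  have hfin : FiniteMultiplicity (p : ℤ) (B - 1) :=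
    Int.finiteMultiplicity_iff.2 ⟨by simpa using hp.ne_one, by omega⟩
  set t := multiplicity (p : ℤ) (B - 1) with ht
  have hlamfin : FiniteMultiplicity p (lam a p) :=
    Nat.finiteMultiplicity_iff.2 ⟨hp.ne_one, lam_pos a p⟩
  set l := multiplicity p (lam a p) with hl
  refine ⟨t + l, fun M Q u hM hQ hpQ hQa hu => ?_⟩
  set j := M - 1 - (t + l) with hj
  set k := lam a p * Q * p ^ j with hk
  set T := 2 * (p - 1) * k with hT
  -- the valuation of `b ^ T - 1`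
  have hval : emultiplicity (p : ℤ) ((b : ℤ) ^ T - 1) = ((M - 1 : ℕ) : ℕ∞) := by
    have h1 : (b : ℤ) ^ T - 1 = B ^ k - 1 := by rw [hB, ← pow_mul]
    rw [h1, lte hp hB1 hB4 k]
    have h2 : emultiplicity p k = ((l + j : ℕ) : ℕ∞) := by
      rw [hk, emultiplicity_mul (Nat.prime_iff.1 hp), emultiplicity_mul (Nat.prime_iff.1 hp),
        emultiplicity_eq_zero.2 hpQ, add_zero, hlamfin.emultiplicity_eq_multiplicity]
      rw [emultiplicity_pow_self_of_prime (Nat.prime_iff.1 hp)]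
      push_cast
      rfl
    rw [h2, hfin.emultiplicity_eq_multiplicity, ← ht]
    have h3 : M - 1 = t + (l + j) := by omega
    rw [h3]; push_cast; rfl
  have hdvd1 : (p : ℤ) ^ (M - 1) ∣ (b : ℤ) ^ T - 1 := pow_dvd_of_le_emultiplicity hval.ge
  have hndvd : ¬ (p : ℤ) ^ (M - 1 + 1) ∣ (b : ℤ) ^ T - 1 := by
    intro h
    have := le_emultiplicity_of_pow_dvd h
    rw [hval] at this
    have h2 : M - 1 + 1 ≤ M - 1 := by exact_mod_cast this
    omega
  have hp0 : (p : ℝ) ≠ 0 := by exact_mod_cast hp.ne_zero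
  have hQ0 : (Q : ℝ) ≠ 0 := by exact_mod_cast hQ.ne'
  refine bounded_sum hp (T := T) (n₀ := Q) ?_ ?_
  · have h1 : (p : ℤ) ∣ B - 1 := hB1
    have h2 : B - 1 ∣ (b : ℤ) ^ T - 1 := by
      have : (b : ℤ) ^ T = B ^ k := by rw [hB, ← pow_mul]
      rw [this]
      simpa using sub_dvd_pow_sub_pow B 1 k
    exact h1.trans h2
  · intro n hn
    have hQdvd : (Q : ℤ) ∣ (b : ℤ) ^ n * ((b : ℤ) ^ T - 1) := by
      have h1 := dvd_step hp ha hb hQ hpQ hQa (T := T)
        ⟨2 * (p - 1) * p ^ j, by rw [hT, hk]; ring⟩ hn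
      have h2 : ((b ^ n * (b ^ T - 1) : ℕ) : ℤ) = (b : ℤ) ^ n * ((b : ℤ) ^ T - 1) := by
        rw [Nat.cast_mul, Nat.cast_sub (Nat.one_le_pow _ _ (by omega))]
        push_cast; ring
      rw [← h2]
      exact_mod_cast h1
    have hcopr : IsCoprime ((p : ℤ) ^ (M - 1)) (Q : ℤ) := by
      apply IsCoprime.pow_left
      rw [Nat.isCoprime_iff_coprime]
      exact (Nat.Prime.coprime_iff_not_dvd hp).2 hpQ
    obtain ⟨w, hw⟩ := hcopr.mul_dvd (hdvd1.mul_left ((b : ℤ) ^ n)) hQdvd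
    have hwp : ¬ (p : ℤ) ∣ w := by
      intro h
      obtain ⟨v, rfl⟩ := h
      apply hndvd
      have h1 : (p : ℤ) ^ (M - 1 + 1) ∣ (b : ℤ) ^ n * ((b : ℤ) ^ T - 1) := by
        rw [hw, pow_succ]
        exact ⟨Q * v, by ring⟩
      refine IsCoprime.dvd_of_dvd_mul_left ?_ h1
      apply IsCoprime.pow
      rw [Nat.isCoprime_iff_coprime]
      exact (Nat.Prime.coprime_iff_not_dvd hp).2 hpb
    refine ⟨w * u, fun h => (hpint.dvd_or_dvd h).elim hwp hu, 0, ?_⟩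
    have h1 : (b : ℝ) ^ n * ((b : ℝ) ^ T - 1) = (p : ℝ) ^ (M - 1) * Q * w := by exact_mod_cast hw
    rw [h1]
    have h2 : (p : ℝ) ^ M = (p : ℝ) ^ (M - 1) * p := by
      rw [← pow_succ]; congr 1; omega
    rw [h2]
    push_cast
    field_simp
    ring

end Pool.Agent.TH382.FO
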