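import Pool.Agent.TH382.FO.Arith

/-!
# The Bessel inequality for the functions `n ↦ e (h b ^ n d)`
-/

set_option autoImplicit false

namespace Pool.Agent.TH382.FO

open Finset

/-- The Weyl mean `(1 / N) ∑_{n < N} e (h b ^ n x)`. -/
noncomputable def weyl (b : ℕ) (h : ℤ) (N : ℕ) (x : ℝ) : ℂ :=
  (∑ n ∈ range N, e (h * ((b : ℝ) ^ n * x))) / N

lemma weyl_norm_le (b : ℕ) (h : ℤ) (N : ℕ) (x : ℝ) : ‖weyl b h N x‖ ≤ 1 := by
  unfold weyl
  rw [norm_div, Complex.norm_natCast]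
  refine div_le_one_of_le₀ ?_ (by positivity)
  refine (norm_sum_le _ _).trans ?_
  simp [norm_e]

lemma weyl_continuous (b : ℕ) (h : ℤ) (N : ℕ) : Continuous (weyl b h N) := by
  unfold weyl
  refine Continuous.div_const (continuous_finsetSum _ fun n _ => ?_) _
  exact e_continuous.comp (by fun_prop)

lemma weyl_measurable (b : ℕ) (h : ℤ) (N : ℕ) : Measurable (weyl b h N) :=
  (weyl_continuous b h N).measurable

/-- **Bessel's inequality**: if the functions `n ↦ e (h b ^ n d i)` are almost orthogonal, then the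
Weyl means of the points `x + d i` are square summable, for every `x`. -/
theorem bessel {ι : Type*} [Fintype ι] (b : ℕ) (h : ℤ) {N : ℕ} (hN : 0 < N) (d : ι → ℝ) {C : ℝ}
    (hC : 0 ≤ C)
    (hd : ∀ i j, i ≠ j → ‖∑ n ∈ range N, e (h * ((b : ℝ) ^ n * (d i - d j)))‖ ≤ C) (x : ℝ) :
    ∑ i, ‖weyl b h N (x + d i)‖ ^ 2 ≤ 1 + (Fintype.card ι : ℝ) ^ 2 * C / N := by
  classical
  have hN0 : (N : ℂ) ≠ 0 := by exact_mod_cast hN.ne'
  have hNpos : (0 : ℝ) < N := by exact_mod_cast hN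
  set u : ℕ → ℂ := fun n => e (h * ((b : ℝ) ^ n * x)) with hu
  set φ : ι → ℕ → ℂ := fun i n => e (h * ((b : ℝ) ^ n * d i)) with hφ
  set W : ι → ℂ := fun i => weyl b h N (x + d i) with hW
  have hWs : ∀ i, ∑ n ∈ range N, u n * φ i n = N * W i := by
    intro i
    simp only [hW, weyl, hu, hφ]
    rw [mul_div_cancel₀ _ hN0]
    refine sum_congr rfl fun n _ => ?_
    rw [← e_add]; congr 1; ring
  have huu : ∀ n, u n * (starRingEnd ℂ) (u n) = 1 := by
    intro n
    rw [Complex.mul_conj, Complex.normSq_eq_norm_sq]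
    simp [hu, norm_e]
  set v : ℕ → ℂ := fun n => ∑ i, (starRingEnd ℂ) (W i) * φ i n with hv
  -- the sums
  have h1 : ∑ n ∈ range N, u n * v n = N * ∑ i, ((‖W i‖ ^ 2 : ℝ) : ℂ) := by
    calc ∑ n ∈ range N, u n * v n
        = ∑ n ∈ range N, ∑ i, (starRingEnd ℂ) (W i) * (u n * φ i n) := by
          refine sum_congr rfl fun n _ => ?_
          simp only [hv]; rw [mul_sum]
          exact sum_congr rfl fun i _ => by ring
      _ = ∑ i, (starRingEnd ℂ) (W i) * (N * W i) := by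
          rw [sum_comm]
          refine sum_congr rfl fun i _ => ?_
          rw [← mul_sum, hWs]
      _ = _ := by
          rw [mul_sum]
          refine sum_congr rfl fun i _ => ?_
          rw [← Complex.normSq_eq_norm_sq, ← Complex.mul_conj]
          ring
  have h2 : ∑ n ∈ range N, v n * (starRingEnd ℂ) (v n) =
      ∑ i, ∑ j, (starRingEnd ℂ) (W i) * W j *
        ∑ n ∈ range N, e (h * ((b : ℝ) ^ n * (d i - d j))) := by
    calc ∑ n ∈ range N, v n * (starRingEnd ℂ) (v n)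
        = ∑ n ∈ range N, ∑ i, ∑ j, (starRingEnd ℂ) (W i) * W j *
            e (h * ((b : ℝ) ^ n * (d i - d j))) := by
          refine sum_congr rfl fun n _ => ?_
          simp only [hv, map_sum, map_mul, Complex.conj_conj]
          rw [sum_mul_sum]
          refine sum_congr rfl fun i _ => sum_congr rfl fun j _ => ?_
          have h3 : e (h * ((b : ℝ) ^ n * (d i - d j))) = φ i n * (starRingEnd ℂ) (φ j n) := by
            simp only [hφ]
            rw [← e_neg, ← e_add]; congr 1; ring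
          rw [h3]; ring
      _ = _ := by
          rw [sum_comm]
          refine sum_congr rfl fun i _ => ?_
          rw [sum_comm]
          refine sum_congr rfl fun j _ => ?_
          rw [mul_sum]
  -- positivity
  have h3 : (0 : ℝ) ≤ (∑ n ∈ range N, ((starRingEnd ℂ) (u n) - v n) *
      (starRingEnd ℂ) ((starRingEnd ℂ) (u n) - v n)).re := by
    rw [Complex.re_sum]
    refine sum_nonneg fun n _ => ?_
    rw [Complex.mul_conj, Complex.ofReal_re]
    exact Complex.normSq_nonneg _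
  have h4 : ∑ n ∈ range N, ((starRingEnd ℂ) (u n) - v n) *
      (starRingEnd ℂ) ((starRingEnd ℂ) (u n) - v n) =
      N - ∑ n ∈ range N, u n * v n - (starRingEnd ℂ) (∑ n ∈ range N, u n * v n) +
        ∑ n ∈ range N, v n * (starRingEnd ℂ) (v n) := by
    have h5 : ∀ n, ((starRingEnd ℂ) (u n) - v n) * (starRingEnd ℂ) ((starRingEnd ℂ) (u n) - v n) =
        1 - u n * v n - (starRingEnd ℂ) (u n * v n) + v n * (starRingEnd ℂ) (v n) := by
      intro n
      rw [map_sub, Complex.conj_conj, map_mul]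
      linear_combination huu n
    rw [sum_congr rfl fun n _ => h5 n, sum_add_distrib, sum_sub_distrib, sum_sub_distrib, map_sum]
    simp
  set A : ℝ := ∑ i, ‖W i‖ ^ 2 with hA
  have h5 : (∑ n ∈ range N, v n * (starRingEnd ℂ) (v n)).re ≤
      N * A + (Fintype.card ι : ℝ) ^ 2 * C := by
    rw [h2, Complex.re_sum]
    have h6 : ∀ i j, ((starRingEnd ℂ) (W i) * W j *
        ∑ n ∈ range N, e (h * ((b : ℝ) ^ n * (d i - d j)))).re ≤
        (if i = j then N * ‖W i‖ ^ 2 else 0) + C := by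
      intro i j
      split_ifs with hij
      · subst hij
        have h7 : ∑ n ∈ range N, e (h * ((b : ℝ) ^ n * (d i - d i))) = N := by
          simp [e_zero]
        rw [h7]
        have h8 : (starRingEnd ℂ) (W i) * W i * N = ((N * ‖W i‖ ^ 2 : ℝ) : ℂ) := by
          rw [mul_comm ((starRingEnd ℂ) (W i)), Complex.mul_conj, Complex.normSq_eq_norm_sq]
          push_cast; ring
        rw [h8, Complex.ofReal_re]
        linarith
      · rw [zero_add]
        refine (Complex.re_le_norm _).trans ?_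
        rw [norm_mul, norm_mul, RCLike.norm_conj]
        calc ‖W i‖ * ‖W j‖ * ‖∑ n ∈ range N, e (h * ((b : ℝ) ^ n * (d i - d j)))‖
            ≤ 1 * 1 * C := by
              gcongr
              · exact weyl_norm_le _ _ _ _
              · exact weyl_norm_le _ _ _ _
              · exact hd i j hij
          _ = C := by ring
    calc ∑ i, (∑ j, (starRingEnd ℂ) (W i) * W j *
          ∑ n ∈ range N, e (h * ((b : ℝ) ^ n * (d i - d j)))).re
        ≤ ∑ i, ∑ j, ((if i = j then N * ‖W i‖ ^ 2 else 0) + C) := by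
          refine sum_le_sum fun i _ => ?_
          rw [Complex.re_sum]
          exact sum_le_sum fun j _ => h6 i j
      _ = N * A + (Fintype.card ι : ℝ) ^ 2 * C := by
          simp only [sum_add_distrib, sum_ite_eq, mem_univ, if_true, sum_const, card_univ,
            nsmul_eq_mul, hA, mul_sum]
          ring
  rw [h4, h1] at h3
  have h7 : ((N : ℂ) * ∑ i, ((‖W i‖ ^ 2 : ℝ) : ℂ)) = ((N * A : ℝ) : ℂ) := by
    rw [hA]; push_cast; rfl
  rw [h7, Complex.conj_ofReal, Complex.add_re, Complex.sub_re, Complex.sub_re, Complex.ofReal_re,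
    Complex.natCast_re] at h3
  have h8 : N * A ≤ N + (Fintype.card ι : ℝ) ^ 2 * C := by linarith
  have h9 : A ≤ 1 + (Fintype.card ι : ℝ) ^ 2 * C / N := by
    rw [← sub_nonneg]
    have h10 : 1 + (Fintype.card ι : ℝ) ^ 2 * C / N - A =
        (N + (Fintype.card ι : ℝ) ^ 2 * C - N * A) / N := by field_simp
    rw [h10]
    exact div_nonneg (by linarith) hNpos.le
  exact h9

/-! ## Digit differences -/

/-- the number with digits `c k` at the places `k ∈ S` (the place `k` has weight `a ^ -(k+1)`) -/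
noncomputable def dsum (a : ℕ) (S : Finset ℕ) (c : S → Fin a) : ℝ :=
  ∑ k : S, ((c k : ℕ) : ℝ) / (a : ℝ) ^ ((k : ℕ) + 1)

/-- the difference of two digit sums on a set of places in one residue class modulo `a` -/
lemma diff_form {a p : ℕ} (hp : p.Prime) (hpa : p ∣ a) (ha : 2 ≤ a) {S : Finset ℕ} {r : ℕ}
    (hS : ∀ k ∈ S, k % a = r) {c c' : S → Fin a} (hc : c ≠ c') :
    ∃ (k : ℕ) (v : ℕ) (U : ℤ), k ∈ S ∧ v < a ∧ ¬ (p : ℤ) ∣ U ∧
      dsum a S c - dsum a S c' = (p : ℝ) ^ v * U / (a : ℝ) ^ (k + 1) := by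
  classical
  have ha0 : (a : ℝ) ≠ 0 := by positivity
  have hpint : Prime (p : ℤ) := Nat.prime_iff_prime_int.1 hp
  -- the largest place where they differ
  obtain ⟨k0, hk0⟩ : ∃ k : S, c k ≠ c' k := by
    by_contra hcon
    push Not at hcon
    exact hc (funext hcon)
  set F : Finset S := univ.filter fun k => c k ≠ c' k with hF
  have hFne : F.Nonempty := ⟨k0, by simp [hF, hk0]⟩
  obtain ⟨m, hmF, hmax⟩ := F.exists_max_image (fun k => (k : ℕ)) hFne
  have hm : c m ≠ c' m := by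
    rw [hF, mem_filter] at hmF; exact hmF.2
  have hgt : ∀ k : S, (m : ℕ) < k → c k = c' k := by
    intro k hk
    by_contra hne
    have := hmax k (by rw [hF, mem_filter]; exact ⟨mem_univ _, hne⟩)
    omega
  set D : ℤ := ((c m : ℕ) : ℤ) - ((c' m : ℕ) : ℤ) with hD
  have hD0 : D ≠ 0 := by
    intro h
    apply hm
    apply Fin.ext
    rw [hD, sub_eq_zero] at h
    exact_mod_cast h
  have hDlt : D.natAbs < a := by
    have h1 := (c m).2
    have h2 := (c' m).2
    omega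
  have hfin : FiniteMultiplicity (p : ℤ) D :=
    Int.finiteMultiplicity_iff.2 ⟨by simpa using hp.ne_one, hD0⟩
  obtain ⟨D', hD', hpD'⟩ := hfin.exists_eq_pow_mul_and_not_dvd
  set v := multiplicity (p : ℤ) D with hv
  have hva : v < a := by
    have h1 : (p : ℤ) ^ v ∣ D := ⟨D', hD'⟩
    have h2 : p ^ v ∣ D.natAbs := by
      have := Int.natAbs_dvd_natAbs.2 h1
      rwa [Int.natAbs_pow, Int.natAbs_natCast] at this
    have h3 : p ^ v ≤ D.natAbs := Nat.le_of_dvd (by omega) h2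
    exact (Nat.lt_pow_self hp.one_lt).trans_le (h3.trans hDlt.le)
  -- the other terms
  have hother : ∀ k : S, k ≠ m → ∃ z : ℤ,
      (((c k : ℕ) : ℝ) - ((c' k : ℕ) : ℝ)) / (a : ℝ) ^ ((k : ℕ) + 1) =
        (a : ℝ) ^ a * z / (a : ℝ) ^ ((m : ℕ) + 1) := by
    intro k hkm
    rcases lt_trichotomy (k : ℕ) (m : ℕ) with hlt | heq | hlt
    · have h1 : (k : ℕ) + a ≤ m := by
        have e1 := hS k k.2
        have e2 := hS m m.2
        have e3 := Nat.div_add_mod (k : ℕ) a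
        have e4 := Nat.div_add_mod (m : ℕ) a
        have e5 : (k : ℕ) / a < (m : ℕ) / a := by
          by_contra hcon
          push Not at hcon
          have : a * ((m : ℕ) / a) ≤ a * ((k : ℕ) / a) := Nat.mul_le_mul_left _ hcon
          omega
        have e6 : a * ((k : ℕ) / a + 1) ≤ a * ((m : ℕ) / a) := Nat.mul_le_mul_left _ e5
        rw [mul_add, mul_one] at e6
        omega
      obtain ⟨t, ht⟩ := Nat.exists_eq_add_of_le h1
      refine ⟨(((c k : ℕ) : ℤ) - ((c' k : ℕ) : ℤ)) * (a : ℤ) ^ t, ?_⟩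
      have h2 : (a : ℝ) ^ ((m : ℕ) + 1) = (a : ℝ) ^ ((k : ℕ) + 1) * (a : ℝ) ^ a * (a : ℝ) ^ t := by
        rw [ht]; ring
      rw [h2]
      push_cast
      field_simp
    · exact absurd (Subtype.ext heq) hkm
    · refine ⟨0, ?_⟩
      rw [hgt k hlt]
      simp
  choose! z hz using hother
  set Z : ℤ := ∑ k ∈ univ.erase m, z k with hZ
  obtain ⟨a', ha'⟩ := hpa
  have hpow : ∃ w : ℤ, (a : ℤ) ^ a = (p : ℤ) ^ v * (p * w) := by
    obtain ⟨t, ht⟩ := Nat.exists_eq_add_of_lt hva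
    have h2 : (p : ℤ) ^ v * p ∣ (a : ℤ) ^ a := by
      rw [← pow_succ]
      refine (pow_dvd_pow (p : ℤ) (by omega : v + 1 ≤ a)).trans (pow_dvd_pow_of_dvd ?_ a)
      exact ⟨a', by exact_mod_cast ha'⟩
    obtain ⟨w, hw⟩ := h2
    exact ⟨w, by rw [hw]; ring⟩
  obtain ⟨w, hw⟩ := hpow
  refine ⟨m, v, D' + p * w * Z, m.2, hva, ?_, ?_⟩
  · intro h
    apply hpD'
    have h1 : (p : ℤ) ∣ p * w * Z := ⟨w * Z, by ring⟩
    have := dvd_sub h h1
    simpa using this
  · unfold dsum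
    rw [← sum_sub_distrib]
    have h1 : ∀ k : S, ((c k : ℕ) : ℝ) / (a : ℝ) ^ ((k : ℕ) + 1) -
        ((c' k : ℕ) : ℝ) / (a : ℝ) ^ ((k : ℕ) + 1) =
        (((c k : ℕ) : ℝ) - ((c' k : ℕ) : ℝ)) / (a : ℝ) ^ ((k : ℕ) + 1) := fun k => by ring
    rw [sum_congr rfl fun k _ => h1 k, ← add_sum_erase univ _ (mem_univ m)]
    have h2 : ∑ k ∈ univ.erase m, (((c k : ℕ) : ℝ) - ((c' k : ℕ) : ℝ)) / (a : ℝ) ^ ((k : ℕ) + 1) =
        (a : ℝ) ^ a * Z / (a : ℝ) ^ ((m : ℕ) + 1) := by
      rw [hZ]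
      push_cast
      rw [mul_sum, sum_div]
      exact sum_congr rfl fun k hk => hz k (ne_of_mem_erase hk)
    rw [h2]
    have h3 : ((c m : ℕ) : ℝ) - ((c' m : ℕ) : ℝ) = (p : ℝ) ^ v * D' := by
      have h4 : ((D : ℤ) : ℝ) = (p : ℝ) ^ v * D' := by
        have h5 : ((D : ℤ) : ℝ) = (((p : ℤ) ^ v * D' : ℤ) : ℝ) := congrArg _ hD'
        rw [h5]; push_cast; ring
      rw [← h4, hD]; push_cast; ring
    have h4 : (a : ℝ) ^ a = (p : ℝ) ^ v * (p * w) := by exact_mod_cast hw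
    rw [h3, h4]
    push_cast
    ring

/-- **The sums for two different digit choices are bounded**, if all places are large. -/
theorem diff_bounded {a b p : ℕ} (hp : p.Prime) (hpa : p ∣ a) (ha : 2 ≤ a) (hpb : ¬ p ∣ b)
    (hb : 2 ≤ b) {h : ℤ} (hh : h ≠ 0) :
    ∃ k₀ : ℕ, ∀ (S : Finset ℕ) (r : ℕ), (∀ k ∈ S, k % a = r) → (∀ k ∈ S, k₀ ≤ k) →
      ∀ c c' : S → Fin a, c ≠ c' →
        ∃ C : ℝ, ∀ N : ℕ,
          ‖∑ n ∈ range N, e (h * ((b : ℝ) ^ n * (dsum a S c - dsum a S c')))‖ ≤ C := by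
  obtain ⟨s, hs⟩ := arith (a := a) (by omega) hp hpb hb
  have hpint : Prime (p : ℤ) := Nat.prime_iff_prime_int.1 hp
  have hp0 : (p : ℝ) ≠ 0 := by exact_mod_cast hp.ne_zero
  have hfin : FiniteMultiplicity (p : ℤ) h :=
    Int.finiteMultiplicity_iff.2 ⟨by simpa using hp.ne_one, hh⟩
  obtain ⟨h', hh', hph'⟩ := hfin.exists_eq_pow_mul_and_not_dvd
  set w := multiplicity (p : ℤ) h with hw
  -- the p-part of a
  have hafin : FiniteMultiplicity p a := Nat.finiteMultiplicity_iff.2 ⟨hp.ne_one, by omega⟩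
  obtain ⟨a₁, ha₁, hpa₁⟩ := hafin.exists_eq_pow_mul_and_not_dvd
  set e₀ := multiplicity p a with he₀
  have he₀1 : 1 ≤ e₀ := by
    by_contra hcon
    have h0 : e₀ = 0 := by omega
    rw [h0, pow_zero, one_mul] at ha₁
    rw [ha₁] at hpa
    exact hpa₁ hpa
  have ha₁pos : 0 < a₁ := by
    rcases Nat.eq_zero_or_pos a₁ with h0 | h0
    · rw [h0, mul_zero] at ha₁; omega
    · exact h0
  refine ⟨s + w + a, fun S r hS hS0 c c' hc => ?_⟩
  obtain ⟨k, v, U, hk, hv, hU, hform⟩ := diff_form hp hpa ha hS hc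
  have hk0 := hS0 k hk
  have hexp : s < e₀ * (k + 1) - (v + w) := by
    have h1 : k + 1 ≤ e₀ * (k + 1) := Nat.le_mul_of_pos_left _ he₀1
    omega
  have hle : v + w ≤ e₀ * (k + 1) := by omega
  obtain ⟨C, hC⟩ := hs (e₀ * (k + 1) - (v + w)) (a₁ ^ (k + 1)) (h' * U) hexp
    (pow_pos ha₁pos _) (fun h1 => hpa₁ (hp.dvd_of_dvd_pow h1))
    (fun q hq h1 => by
      rw [ha₁]
      exact (hq.dvd_of_dvd_pow h1).mul_left _)
    (fun h1 => (hpint.dvd_or_dvd h1).elim hph' hU)
  refine ⟨C, fun N => ?_⟩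
  have key : ∀ n : ℕ, (h : ℝ) * ((b : ℝ) ^ n * (dsum a S c - dsum a S c')) =
      (b : ℝ) ^ n * (((h' * U : ℤ) : ℝ) /
        ((p : ℝ) ^ (e₀ * (k + 1) - (v + w)) * ((a₁ ^ (k + 1) : ℕ) : ℝ))) := by
    intro n
    rw [hform]
    have h1 : (h : ℝ) = (p : ℝ) ^ w * h' := by
      have h5 : ((h : ℤ) : ℝ) = (((p : ℤ) ^ w * h' : ℤ) : ℝ) := congrArg _ hh'
      rw [h5]; push_cast; ring
    have h2 : (a : ℝ) ^ (k + 1) = (p : ℝ) ^ (e₀ * (k + 1) - (v + w)) * (p : ℝ) ^ (v + w) *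
        (a₁ : ℝ) ^ (k + 1) := by
      rw [← pow_add, Nat.sub_add_cancel hle, pow_mul, ← mul_pow]
      congr 1
      exact_mod_cast ha₁
    have ha10 : (a₁ : ℝ) ≠ 0 := by exact_mod_cast ha₁pos.ne'
    rw [h1, h2, pow_add]
    push_cast
    field_simp
  calc ‖∑ n ∈ range N, e (h * ((b : ℝ) ^ n * (dsum a S c - dsum a S c')))‖ = _ := by
        rw [sum_congr rfl fun n _ => congrArg e (key n)]
    _ ≤ C := hC N

end Pool.Agent.TH382.FO
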