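import Pool.Agent.TH382.FO.Prob
import Pool.Agent.H1R3.Det.Weyl

/-!
# Almost sure equidistribution along a subsequence; dense orbits; sparse digits
-/

set_option autoImplicit false

namespace Pool.Agent.TH382.FO

open Finset MeasureTheory ProbabilityTheory Filter Topology

/-- the closure of the orbit of `x` under `x ↦ b x mod 1` -/
def orb (b : ℕ) (x : ℝ) : Set ℝ :=
  closure (Set.range (fun n : ℕ => Int.fract ((b : ℝ) ^ n * x)))

/-! ## From the Weyl means to dense orbits -/

lemma avg_eq (b : ℕ) (h : ℤ) (N : ℕ) (x : ℝ) :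
    Pool.Agent.H1R3.Det.avg (fun n => (((b : ℝ) ^ n * x : ℝ) : AddCircle (1 : ℝ)))
      (fun z => (fourier h z : ℂ)) N = weyl b h N x := by
  unfold Pool.Agent.H1R3.Det.avg weyl
  congr 1
  refine sum_congr rfl fun n _ => ?_
  change (fourier h (((b : ℝ) ^ n * x : ℝ) : AddCircle (1 : ℝ)) : ℂ) = _
  rw [fourier_coe_apply]
  unfold e
  congr 1
  push_cast
  ring

lemma orb_of_weyl {b : ℕ} {x : ℝ} {N : ℕ → ℕ} (hN : Tendsto N atTop atTop)
    (hx : ∀ h : ℤ, h ≠ 0 → Tendsto (fun i => weyl b h (N i) x) atTop (𝓝 0)) :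
    orb b x = Set.Icc 0 1 := by
  have hw := Pool.Agent.H1R3.Det.weyl_criterion
    (fun n => (((b : ℝ) ^ n * x : ℝ) : AddCircle (1 : ℝ))) N hN
    (fun h hh => by simpa only [avg_eq] using hx h hh)
  -- every small interval is visited
  have key : ∀ m r : ℝ, 0 < r → ∃ n : ℕ, ‖(((b : ℝ) ^ n * x - m : ℝ) : AddCircle (1 : ℝ))‖ < r := by
    intro m r hr
    by_contra hcon
    push Not at hcon
    let g : C(AddCircle (1 : ℝ), ℝ) :=
      ⟨fun z => max 0 (r - ‖z - ((m : ℝ) : AddCircle (1 : ℝ))‖), by fun_prop⟩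
    let f : C(AddCircle (1 : ℝ), ℂ) := ⟨fun z => (g z : ℂ), by fun_prop⟩
    have h1 := hw f
    have h2 : ∀ i, Pool.Agent.H1R3.Det.avg
        (fun n => (((b : ℝ) ^ n * x : ℝ) : AddCircle (1 : ℝ))) f (N i) = 0 := by
      intro i
      unfold Pool.Agent.H1R3.Det.avg
      rw [sum_eq_zero, zero_div]
      intro n _
      have h3 := hcon n
      have h4 : g (((b : ℝ) ^ n * x : ℝ) : AddCircle (1 : ℝ)) = 0 := by
        simp only [g, ContinuousMap.coe_mk]
        refine max_eq_left ?_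
        rw [← AddCircle.coe_sub]
        linarith
      simp only [f, ContinuousMap.coe_mk, h4, Complex.ofReal_zero]
    have h3 : ∫ z : AddCircle (1 : ℝ), f z = 0 :=
      tendsto_nhds_unique (h1.congr h2) tendsto_const_nhds |>.symm ▸ rfl
    have h4 : ∫ z : AddCircle (1 : ℝ), f z = ((∫ z : AddCircle (1 : ℝ), g z : ℝ) : ℂ) := by
      simp only [f, ContinuousMap.coe_mk]
      exact integral_ofReal
    rw [h4] at h3
    have h5 : ∫ z : AddCircle (1 : ℝ), g z = 0 := by exact_mod_cast h3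
    have h6 : 0 < ∫ z : AddCircle (1 : ℝ), g z := by
      refine Continuous.integral_pos_of_hasCompactSupport_nonneg_nonzero g.continuous
        (HasCompactSupport.of_compactSpace _) (fun z => le_max_left _ _)
        (x := ((m : ℝ) : AddCircle (1 : ℝ))) ?_
      simp only [g, ContinuousMap.coe_mk, sub_self, norm_zero, sub_zero]
      rw [max_eq_right hr.le]
      exact hr.ne'
    linarith
  have hsub : Set.range (fun n : ℕ => Int.fract ((b : ℝ) ^ n * x)) ⊆ Set.Icc 0 1 := by
    rintro _ ⟨n, rfl⟩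
    exact ⟨Int.fract_nonneg _, (Int.fract_lt_one _).le⟩
  refine Set.Subset.antisymm (closure_minimal hsub isClosed_Icc) ?_
  have h1 : Set.Ioo (0 : ℝ) 1 ⊆ orb b x := by
    intro y hy
    refine Metric.mem_closure_iff.2 fun ε hε => ?_
    obtain ⟨n, hn⟩ := key y (min ε (min y (1 - y)))
      (lt_min hε (lt_min hy.1 (by linarith [hy.2])))
    refine ⟨_, ⟨n, rfl⟩, ?_⟩
    have h2 : ‖(((b : ℝ) ^ n * x - y : ℝ) : AddCircle (1 : ℝ))‖ =
        |(b : ℝ) ^ n * x - y - round ((b : ℝ) ^ n * x - y)| := UnitAddCircle.norm_eq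
    rw [h2] at hn
    set k := round ((b : ℝ) ^ n * x - y) with hk
    have h3 := abs_lt.1 (hn.trans_le (min_le_left _ _))
    have h4 := abs_lt.1 (hn.trans_le ((min_le_right _ _).trans (min_le_left _ _)))
    have h5 := abs_lt.1 (hn.trans_le ((min_le_right _ _).trans (min_le_right _ _)))
    have h6 : Int.fract ((b : ℝ) ^ n * x) = (b : ℝ) ^ n * x - k := by
      rw [Int.fract_eq_iff]
      refine ⟨by linarith [h4.1], by linarith [h5.2], k, by ring⟩
    simp only [h6]
    rw [Real.dist_eq, abs_lt]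
    constructor <;> linarith [h3.1, h3.2]
  have h2 := closure_minimal h1 isClosed_closure
  rwa [closure_Ioo (by norm_num)] at h2

/-! ## Almost sure convergence along a subsequence -/

section

variable {Ω : Type*} [mΩ : MeasurableSpace Ω] {P : Measure Ω} [IsProbabilityMeasure P]

lemma ae_tendsto_of_sum {f : ℕ → Ω → ℝ} (hf : ∀ i, Measurable (f i)) (hf0 : ∀ i ω, 0 ≤ f i ω)
    (hf1 : ∀ i ω, f i ω ≤ 1) {i₀ : ℕ} (hs : ∀ i, i₀ ≤ i → ∫ ω, f i ω ∂P ≤ (1 / 2) ^ i) :
    ∀ᵐ ω ∂P, Tendsto (fun i => f i ω) atTop (𝓝 0) := by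
  have hfi : ∀ i, Integrable (f i) P := fun i =>
    Integrable.of_bound (hf i).aestronglyMeasurable 1
      (Eventually.of_forall fun ω => by rw [Real.norm_eq_abs, abs_of_nonneg (hf0 i ω)]; exact hf1 i ω)
  have h1 : ∫⁻ ω, ∑' i, ENNReal.ofReal (f (i + i₀) ω) ∂P ≠ ⊤ := by
    rw [lintegral_tsum fun i => ((hf _).ennreal_ofReal).aemeasurable]
    have h2 : ∀ i, ∫⁻ ω, ENNReal.ofReal (f (i + i₀) ω) ∂P ≤ ENNReal.ofReal ((1 / 2) ^ (i + i₀)) := by
      intro i
      rw [← ofReal_integral_eq_lintegral_ofReal (hfi _) (Eventually.of_forall fun ω => hf0 _ ω)]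
      exact ENNReal.ofReal_le_ofReal (hs _ (by omega))
    refine ne_top_of_le_ne_top ?_ (ENNReal.tsum_le_tsum h2)
    have h3 : Summable fun i : ℕ => ((1 : ℝ) / 2) ^ (i + i₀) :=
      (summable_nat_add_iff i₀).2 (summable_geometric_of_lt_one (by norm_num) (by norm_num))
    exact h3.tsum_ofReal_ne_top
  have h2 := ae_lt_top (Measurable.tsum fun i => (hf (i + i₀)).ennreal_ofReal) h1
  filter_upwards [h2] with ω hω
  have h3 := ENNReal.tendsto_atTop_zero_of_tsum_ne_top hω.ne
  have h4 : Tendsto (fun i => f (i + i₀) ω) atTop (𝓝 0) := by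
    have h5 := (ENNReal.tendsto_toReal ENNReal.zero_ne_top).comp h3
    rw [ENNReal.toReal_zero] at h5
    refine h5.congr fun i => ?_
    simp only [Function.comp]
    exact ENNReal.toReal_ofReal (hf0 _ ω)
  exact (tendsto_add_atTop_iff_nat i₀).1 h4

/-- Mean square convergence of all Weyl means implies almost sure convergence along one sequence. -/
lemma exists_subseq {b : ℕ} {Y : Ω → ℝ} (hY : Measurable Y)
    (h : ∀ h : ℤ, h ≠ 0 → Tendsto (fun N => ∫ ω, ‖weyl b h N (Y ω)‖ ^ 2 ∂P) atTop (𝓝 0)) :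
    ∃ N : ℕ → ℕ, StrictMono N ∧
      ∀ᵐ ω ∂P, ∀ h : ℤ, h ≠ 0 → Tendsto (fun i => weyl b h (N i) (Y ω)) atTop (𝓝 0) := by
  obtain ⟨N, hN, hp⟩ := extraction_forall_of_eventually
    (P := fun i N => ∀ h ∈ Finset.Icc (-(i : ℤ)) i, h ≠ 0 →
      ∫ ω, ‖weyl b h N (Y ω)‖ ^ 2 ∂P ≤ (1 / 2) ^ i) (fun i => by
      rw [Finset.eventually_all]
      intro k _
      by_cases hk : k = 0
      · exact Eventually.of_forall fun N h0 => absurd hk h0
      · filter_upwards [(h k hk).eventually_lt_const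
          (show (0 : ℝ) < (1 / 2) ^ i by positivity)] with N hN _
        exact hN.le)
  refine ⟨N, hN, ?_⟩
  rw [ae_all_iff]
  intro k
  by_cases hk : k = 0
  · exact Eventually.of_forall fun ω h0 => absurd hk h0
  have h1 : ∀ᵐ ω ∂P, Tendsto (fun i => ‖weyl b k (N i) (Y ω)‖ ^ 2) atTop (𝓝 0) := by
    refine ae_tendsto_of_sum (f := fun i ω => ‖weyl b k (N i) (Y ω)‖ ^ 2)
      (fun i => (((weyl_measurable b k (N i)).comp hY).norm).pow_const 2)
      (fun i ω => by positivity)
      (fun i ω => pow_le_one₀ (norm_nonneg _) (weyl_norm_le _ _ _ _))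
      (i₀ := k.natAbs) (fun i hi => hp i k ?_ hk)
    rw [Finset.mem_Icc]
    omega
  filter_upwards [h1] with ω hω _
  rw [tendsto_zero_iff_norm_tendsto_zero]
  have h2 := hω.sqrt
  rw [Real.sqrt_zero] at h2
  refine h2.congr fun i => ?_
  exact Real.sqrt_sq (norm_nonneg _)

lemma val_measurable {a : ℕ} (ha : 2 ≤ a) {X : ℕ → Ω → Fin a} (hX : ∀ k, Measurable (X k)) :
    Measurable fun ω => val a fun k => X k ω := by
  refine measurable_of_tendsto_metrizable
    (f := fun n ω => ∑ k ∈ range n, ((X k ω : ℕ) : ℝ) / (a : ℝ) ^ (k + 1)) (fun n => ?_) ?_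
  · refine Finset.measurable_fun_sum _ fun k _ => ?_
    have h3 : Measurable fun c : Fin a => ((c : ℕ) : ℝ) / (a : ℝ) ^ (k + 1) := measurable_of_finite _
    exact h3.comp (hX k)
  · rw [tendsto_pi_nhds]
    intro ω
    exact (digits_summable ha (fun k => X k ω)).hasSum.tendsto_sum_nat

end

/-! ## Sparse digits -/

/-- the distances between consecutive nonzero digits tend to infinity -/
def Sparse {a : ℕ} (c : ℕ → Fin a) : Prop :=
  ∀ G : ℕ, ∃ N : ℕ, ∀ i j : ℕ, N ≤ i → i < j → (c i : ℕ) ≠ 0 → (c j : ℕ) ≠ 0 → i + G ≤ j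

lemma val_nonneg {a : ℕ} (c : ℕ → Fin a) : 0 ≤ val a c := tsum_nonneg fun k => term_nonneg a c k

/-- the tail of a digit expansion -/
lemma val_tail {a : ℕ} (ha : 2 ≤ a) (c : ℕ → Fin a) (j : ℕ) :
    val a c = ∑ k ∈ range j, ((c k : ℕ) : ℝ) / (a : ℝ) ^ (k + 1) +
      val a (fun k => c (k + j)) / (a : ℝ) ^ j := by
  have ha0 : (a : ℝ) ≠ 0 := by positivity
  unfold val
  rw [← (digits_summable ha c).sum_add_tsum_nat_add j, ← tsum_div_const]
  congr 1
  refine tsum_congr fun k => ?_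
  have : (a : ℝ) ^ (k + j + 1) = (a : ℝ) ^ (k + 1) * (a : ℝ) ^ j := by ring
  rw [this, div_div]

lemma val_le_one {a : ℕ} (ha : 2 ≤ a) (c : ℕ → Fin a) : val a c ≤ 1 := by
  have ha2 : (2 : ℝ) ≤ a := by exact_mod_cast ha
  have hpos : (0 : ℝ) < a := by linarith
  have hg : Summable fun k : ℕ => (1 / (a : ℝ)) ^ k := geom_summable ha
  have h1 : val a c ≤ ∑' k : ℕ, ((a : ℝ) - 1) / a * (1 / (a : ℝ)) ^ k := by
    refine Summable.tsum_le_tsum (fun k => ?_) (digits_summable ha c) (hg.mul_left _)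
    have h2 : ((c k : ℕ) : ℝ) ≤ a - 1 := by
      have := (c k).2
      have h3 : (c k : ℕ) + 1 ≤ a := this
      have h4 : (((c k : ℕ) + 1 : ℕ) : ℝ) ≤ a := by exact_mod_cast h3
      push_cast at h4; linarith
    rw [one_div, inv_pow, pow_succ]
    calc ((c k : ℕ) : ℝ) / ((a : ℝ) ^ k * a) ≤ (a - 1) / ((a : ℝ) ^ k * a) := by gcongr
      _ = ((a : ℝ) - 1) / a * ((a : ℝ) ^ k)⁻¹ := by field_simp
  refine h1.trans (le_of_eq ?_)
  have h3 : (1 / (a : ℝ)) < 1 := by rw [div_lt_one hpos]; linarith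
  rw [tsum_mul_left, tsum_geometric_of_lt_one (by positivity) h3]
  have h4 : (a : ℝ) - 1 ≠ 0 := by linarith
  field_simp

lemma fract_shift {a : ℕ} (ha : 2 ≤ a) (c : ℕ → Fin a) (n : ℕ) :
    ∃ k : ℤ, (a : ℝ) ^ n * val a c = k + val a (fun i => c (i + n)) := by
  have ha0 : (a : ℝ) ≠ 0 := by positivity
  refine ⟨∑ k ∈ range n, (c k : ℕ) * (a : ℤ) ^ (n - (k + 1)), ?_⟩
  rw [val_tail ha c n, mul_add, mul_sum]
  congr 1
  · push_cast
    refine sum_congr rfl fun k hk => ?_
    have hk' := mem_range.1 hk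
    have h1 : (a : ℝ) ^ n = (a : ℝ) ^ (n - (k + 1)) * (a : ℝ) ^ (k + 1) := by
      rw [← pow_add]; congr 1; omega
    rw [h1]; field_simp
  · field_simp

/-- the possible limit points -/
def lims (a : ℕ) : Set ℝ := {0, 1} ∪ Set.range fun q : ℕ × ℕ => (q.1 : ℝ) / (a : ℝ) ^ (q.2 + 1)

lemma lims_countable (a : ℕ) : (lims a).Countable :=
  ((Set.countable_singleton 1).insert 0).union (Set.countable_range _)

/-- **Sparse digits: the orbit closure is countable.** -/
theorem sparse_dim {a : ℕ} (ha : 2 ≤ a) {c : ℕ → Fin a} (hc : Sparse c) :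
    dimH (orb a (val a c)) = 0 := by
  have ha2 : (2 : ℝ) ≤ a := by exact_mod_cast ha
  have hpos : (0 : ℝ) < a := by linarith
  have ha0 : (a : ℝ) ≠ 0 := hpos.ne'
  set x := val a c with hx
  set y : ℕ → ℝ := fun n => val a (fun i => c (i + n)) with hy
  have hfr : ∀ n : ℕ, Int.fract ((a : ℝ) ^ n * x) = Int.fract (y n) := by
    intro n
    obtain ⟨k, hk⟩ := fract_shift ha c n
    rw [hk, Int.fract_intCast_add]
  have hy0 : ∀ n, 0 ≤ y n := fun n => val_nonneg _
  have hy1 : ∀ n, y n ≤ 1 := fun n => val_le_one ha _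
  -- the fractional part is `y n` or zero
  have hfr2 : ∀ n : ℕ, Int.fract (y n) = y n ∨ Int.fract (y n) = 0 := by
    intro n
    rcases (hy1 n).lt_or_eq with h | h
    · exact Or.inl (Int.fract_eq_self.2 ⟨hy0 n, h⟩)
    · right; rw [h]; simp
  -- points far out are close to the possible limit points
  have hclose : ∀ z : ℝ, 0 < z → ∀ J : ℕ, 1 / (a : ℝ) ^ J < z / 2 → ∀ δ : ℝ, 0 < δ → δ ≤ z / 2 →
      ∃ N, ∀ n, N ≤ n → |y n - z| < δ → ∃ d ∈ range a, ∃ j ∈ range J,
        |z - (d : ℝ) / (a : ℝ) ^ (j + 1)| < 2 * δ := by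
    intro z hz J hJ δ hδ hδz
    obtain ⟨G, hG⟩ : ∃ G : ℕ, 1 / (a : ℝ) ^ G < δ := by
      obtain ⟨G, hG⟩ := exists_pow_lt_of_lt_one hδ (show 1 / (a : ℝ) < 1 by
        rw [div_lt_one hpos]; linarith)
      exact ⟨G, by rwa [one_div_pow] at hG⟩
    obtain ⟨N, hN⟩ := hc G
    refine ⟨N, fun n hn hyn => ?_⟩
    have hyz : z / 2 < y n := by
      have := (abs_lt.1 hyn).1
      linarith
    -- there is a nonzero digit
    have hne : ∃ j, (c (j + n) : ℕ) ≠ 0 := by
      by_contra hcon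
      push Not at hcon
      have : y n = 0 := by
        simp only [hy, val, hcon]
        simp
      linarith
    classical
    set j := Nat.find hne with hj
    have hj1 : (c (j + n) : ℕ) ≠ 0 := Nat.find_spec hne
    have hj2 : ∀ i < j, (c (i + n) : ℕ) = 0 := fun i hi => by
      have := Nat.find_min hne hi
      push Not at this
      exact this
    have hsum : y n = ((c (j + n) : ℕ) : ℝ) / (a : ℝ) ^ (j + 1) +
        val a (fun k => c (k + (j + 1) + n)) / (a : ℝ) ^ (j + 1) := by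
      have h1 := val_tail ha (fun i => c (i + n)) (j + 1)
      simp only [hy]
      rw [h1, sum_range_succ, sum_eq_zero (fun k hk => by
        rw [hj2 k (mem_range.1 hk)]; simp), zero_add]
    -- the position is bounded
    have hjJ : j < J := by
      by_contra hcon
      push Not at hcon
      have h1 := val_tail ha (fun i => c (i + n)) j
      rw [sum_eq_zero (fun k hk => by rw [hj2 k (mem_range.1 hk)]; simp), zero_add] at h1
      have h2 : y n ≤ 1 / (a : ℝ) ^ j := by
        simp only [hy]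
        rw [h1]
        gcongr
        exact val_le_one ha _
      have h3 : 1 / (a : ℝ) ^ j ≤ 1 / (a : ℝ) ^ J := by
        gcongr
        linarith
      linarith
    -- the rest is small
    have hrest : val a (fun k => c (k + (j + 1) + n)) ≤ 1 / (a : ℝ) ^ (G - 1) := by
      have h1 := val_tail ha (fun k => c (k + (j + 1) + n)) (G - 1)
      rw [h1, sum_eq_zero (fun k hk => ?_), zero_add]
      · gcongr
        exact val_le_one ha _
      · have hk' := mem_range.1 hk
        have h2 : (c (k + (j + 1) + n) : ℕ) = 0 := by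
          by_contra hcon
          have := hN (j + n) (k + (j + 1) + n) (by omega) (by omega) hj1 hcon
          omega
        rw [h2]; simp
    have hrest2 : val a (fun k => c (k + (j + 1) + n)) / (a : ℝ) ^ (j + 1) < δ := by
      refine lt_of_le_of_lt ?_ hG
      calc val a (fun k => c (k + (j + 1) + n)) / (a : ℝ) ^ (j + 1)
          ≤ (1 / (a : ℝ) ^ (G - 1)) / (a : ℝ) ^ 1 := by
            refine div_le_div₀ (by positivity) hrest (by positivity) ?_
            exact pow_le_pow_right₀ (by linarith) (by omega)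
        _ = 1 / (a : ℝ) ^ (G - 1 + 1) := by rw [div_div, ← pow_add]
        _ ≤ 1 / (a : ℝ) ^ G := by
            refine one_div_le_one_div_of_le (by positivity) ?_
            exact pow_le_pow_right₀ (by linarith) (by omega)
    refine ⟨(c (j + n) : ℕ), mem_range.2 (c (j + n)).2, j, mem_range.2 hjJ, ?_⟩
    have h0 : 0 ≤ val a (fun k => c (k + (j + 1) + n)) / (a : ℝ) ^ (j + 1) :=
      div_nonneg (val_nonneg _) (by positivity)
    have h1 := abs_lt.1 hyn
    rw [abs_lt]
    constructor <;> linarith [h1.1, h1.2, hsum]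
  -- the closure is countable
  have hsubset : orb a x ⊆ (Set.range y ∪ {0}) ∪ lims a := by
    intro z hz
    by_contra hcon
    rw [Set.mem_union, Set.mem_union, not_or, not_or] at hcon
    obtain ⟨⟨hz1, hz2⟩, hz3⟩ := hcon
    have hz0 : 0 < z := by
      have h1 : 0 ≤ z := by
        have : orb a x ⊆ Set.Ici 0 := closure_minimal (by
          rintro _ ⟨n, rfl⟩
          exact Set.mem_Ici.2 (Int.fract_nonneg _)) isClosed_Ici
        exact this hz
      exact lt_of_le_of_ne h1 fun h => hz2 h.symm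
    obtain ⟨J, hJ⟩ : ∃ J : ℕ, 1 / (a : ℝ) ^ J < z / 2 := by
      obtain ⟨G, hG⟩ := exists_pow_lt_of_lt_one (half_pos hz0) (show 1 / (a : ℝ) < 1 by
        rw [div_lt_one hpos]; linarith)
      exact ⟨G, by rwa [one_div_pow] at hG⟩
    -- the finite set of candidates
    set F : Finset ℝ := ((range a) ×ˢ (range J)).image
      (fun q : ℕ × ℕ => (q.1 : ℝ) / (a : ℝ) ^ (q.2 + 1)) with hF
    have hzF : z ∉ F := by
      intro h
      rw [hF, mem_image] at h
      obtain ⟨q, _, hq⟩ := h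
      exact hz3 (Or.inr ⟨q, hq⟩)
    -- distance to F
    obtain ⟨δ, hδ, hδF⟩ : ∃ δ : ℝ, 0 < δ ∧ ∀ w ∈ F, 2 * δ ≤ |z - w| := by
      have hcl : IsClosed (F : Set ℝ) := F.finite_toSet.isClosed
      obtain ⟨ε, hε, hball⟩ := Metric.isOpen_iff.1 hcl.isOpen_compl z hzF
      refine ⟨ε / 2, half_pos hε, fun w hw => ?_⟩
      by_contra hlt
      push Not at hlt
      have : w ∈ Metric.ball z ε := by
        rw [Metric.mem_ball, Real.dist_eq, abs_sub_comm]; linarith
      exact hball this hw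
    set δ' := min δ (z / 2) with hδ'
    have hδ'0 : 0 < δ' := lt_min hδ (half_pos hz0)
    obtain ⟨N, hN⟩ := hclose z hz0 J hJ δ' hδ'0 (min_le_right _ _)
    -- the first points stay away from z
    obtain ⟨η, hη, hηN⟩ : ∃ η : ℝ, 0 < η ∧ ∀ n < N, η ≤ |y n - z| := by
      have hfin : ((fun n => y n) '' (Set.Iio N)).Finite := (Set.finite_Iio N).image _
      have hnot : z ∉ (fun n => y n) '' (Set.Iio N) := by
        rintro ⟨n, _, hn⟩
        exact hz1 ⟨n, hn⟩
      obtain ⟨ε, hε, hball⟩ := Metric.isOpen_iff.1 hfin.isClosed.isOpen_compl z hnot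
      refine ⟨ε, hε, fun n hn => ?_⟩
      by_contra hlt
      push Not at hlt
      have : y n ∈ Metric.ball z ε := by rw [Metric.mem_ball, Real.dist_eq]; exact hlt
      exact hball this ⟨n, hn, rfl⟩
    obtain ⟨_, ⟨n, rfl⟩, hn⟩ := Metric.mem_closure_iff.1 hz (min (min δ' η) z)
      (lt_min (lt_min hδ'0 hη) hz0)
    simp only [hfr n, Real.dist_eq] at hn
    rcases hfr2 n with h | h
    · rw [h, abs_sub_comm] at hn
      have h1 := hn.trans_le ((min_le_left _ _).trans (min_le_left _ _))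
      have h2 := hn.trans_le ((min_le_left _ _).trans (min_le_right _ _))
      have h3 : N ≤ n := by
        by_contra hlt
        exact absurd (hηN n (not_le.1 hlt)) (not_le.2 h2)
      obtain ⟨d, hd, j, hj, hdj⟩ := hN n h3 h1
      have h4 := hδF ((d : ℝ) / (a : ℝ) ^ (j + 1)) (by
        rw [hF, mem_image]
        exact ⟨(d, j), mem_product.2 ⟨hd, hj⟩, rfl⟩)
      have h5 : 2 * δ' ≤ 2 * δ := by linarith [min_le_left δ (z / 2)]
      linarith
    · rw [h, sub_zero, abs_of_pos hz0] at hn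
      exact absurd (hn.trans_le (min_le_right _ _)) (lt_irrefl z)
  exact (((Set.countable_range y).union (Set.countable_singleton 0)).union
    (lims_countable a)).mono hsubset |>.dimH_zero

end Pool.Agent.TH382.FO
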