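import Pool.Agent.TH382.FO.Bessel

/-!
# Random digits: the mean square of the Weyl means tends to zero
-/

set_option autoImplicit false

namespace Pool.Agent.TH382.FO

open Finset MeasureTheory ProbabilityTheory Filter Topology

/-- the real number in `[0, 1]` with the base `a` digits `c` -/
noncomputable def val (a : ℕ) (c : ℕ → Fin a) : ℝ := ∑' k, ((c k : ℕ) : ℝ) / (a : ℝ) ^ (k + 1)

/-- the part of `val a c` coming from the digits outside `S` -/
noncomputable def rest (a : ℕ) (S : Finset ℕ) (c : ℕ → Fin a) : ℝ :=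
  ∑' k, if k ∈ S then 0 else ((c k : ℕ) : ℝ) / (a : ℝ) ^ (k + 1)

lemma term_nonneg (a : ℕ) (c : ℕ → Fin a) (k : ℕ) : 0 ≤ ((c k : ℕ) : ℝ) / (a : ℝ) ^ (k + 1) := by
  positivity

lemma term_le {a : ℕ} (ha : 2 ≤ a) (c : ℕ → Fin a) (k : ℕ) :
    ((c k : ℕ) : ℝ) / (a : ℝ) ^ (k + 1) ≤ (1 / (a : ℝ)) ^ k := by
  have ha0 : (0 : ℝ) < a := by positivity
  have h1 : ((c k : ℕ) : ℝ) ≤ a := by exact_mod_cast (c k).2.le
  rw [pow_succ, one_div, inv_pow, div_le_iff₀ (by positivity)]
  have h2 : ((a : ℝ) ^ k)⁻¹ * ((a : ℝ) ^ k * a) = a := by field_simp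
  rw [h2]
  exact h1

lemma geom_summable {a : ℕ} (ha : 2 ≤ a) : Summable fun k : ℕ => (1 / (a : ℝ)) ^ k := by
  have ha2 : (2 : ℝ) ≤ a := by exact_mod_cast ha
  refine summable_geometric_of_lt_one (by positivity) ?_
  rw [div_lt_one (by linarith)]
  linarith

lemma digits_summable {a : ℕ} (ha : 2 ≤ a) (c : ℕ → Fin a) :
    Summable fun k => ((c k : ℕ) : ℝ) / (a : ℝ) ^ (k + 1) :=
  Summable.of_nonneg_of_le (term_nonneg a c) (term_le ha c) (geom_summable ha)

lemma rest_summable {a : ℕ} (ha : 2 ≤ a) (S : Finset ℕ) (c : ℕ → Fin a) :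
    Summable fun k => if k ∈ S then 0 else ((c k : ℕ) : ℝ) / (a : ℝ) ^ (k + 1) := by
  refine Summable.of_nonneg_of_le (fun k => ?_) (fun k => ?_) (digits_summable ha c)
  · split_ifs
    · exact le_rfl
    · exact term_nonneg a c k
  · split_ifs
    · exact term_nonneg a c k
    · exact le_rfl

lemma val_split {a : ℕ} (ha : 2 ≤ a) (S : Finset ℕ) (c : ℕ → Fin a) :
    val a c = rest a S c + dsum a S (fun k => c k) := by
  unfold val rest dsum
  rw [Finset.sum_coe_sort S (fun k => ((c k : ℕ) : ℝ) / (a : ℝ) ^ (k + 1))]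
  have h1 : ∑ k ∈ S, ((c k : ℕ) : ℝ) / (a : ℝ) ^ (k + 1) =
      ∑' k, if k ∈ S then ((c k : ℕ) : ℝ) / (a : ℝ) ^ (k + 1) else 0 := by
    rw [tsum_eq_sum (s := S) (fun k hk => if_neg hk)]
    exact sum_congr rfl fun k hk => (if_pos hk).symm
  rw [h1, ← Summable.tsum_add (rest_summable ha S c)
    (summable_of_ne_finset_zero (s := S) fun k hk => if_neg hk)]
  refine tsum_congr fun k => ?_
  split_ifs <;> simp

section

variable {Ω : Type*} [mΩ : MeasurableSpace Ω] {P : Measure Ω} [IsProbabilityMeasure P] {a : ℕ}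
  {X : ℕ → Ω → Fin a}

/-- the sigma algebra of the digits in `S` -/
@[reducible] def sig (X : ℕ → Ω → Fin a) (S : Set ℕ) : MeasurableSpace Ω :=
  ⨆ k ∈ S, MeasurableSpace.comap (X k) inferInstance

lemma comap_le (hX : ∀ k, Measurable (X k)) (k : ℕ) :
    MeasurableSpace.comap (X k) inferInstance ≤ mΩ := (hX k).comap_le

lemma sig_le (hX : ∀ k, Measurable (X k)) (S : Set ℕ) : sig X S ≤ mΩ :=
  iSup₂_le fun k _ => comap_le hX k

lemma rest_measurable (ha : 2 ≤ a) (S : Finset ℕ) :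
    Measurable[sig X ((S : Set ℕ)ᶜ)] fun ω => rest a S (fun k => X k ω) := by
  refine @measurable_of_tendsto_metrizable Ω ℝ (sig X ((S : Set ℕ)ᶜ)) _ _ _ _
    (fun n ω => ∑ k ∈ range n, if k ∈ S then 0 else ((X k ω : ℕ) : ℝ) / (a : ℝ) ^ (k + 1)) _
    (fun n => ?_) ?_
  · refine Finset.measurable_fun_sum _ fun k _ => ?_
    by_cases hk : k ∈ S
    · simp only [hk, if_true]; exact measurable_const
    · simp only [hk, if_false]
      have h1 : Measurable[MeasurableSpace.comap (X k) inferInstance] (X k) :=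
        comap_measurable (X k)
      have h2 : MeasurableSpace.comap (X k) inferInstance ≤ sig X ((S : Set ℕ)ᶜ) := by
        refine le_iSup₂_of_le k ?_ le_rfl
        simpa using hk
      have h3 : Measurable fun c : Fin a => ((c : ℕ) : ℝ) / (a : ℝ) ^ (k + 1) :=
        measurable_of_finite _
      exact h3.comp (h1.mono h2 le_rfl)
  · rw [tendsto_pi_nhds]
    intro ω
    exact (rest_summable ha S (fun k => X k ω)).hasSum.tendsto_sum_nat

lemma indep_sig (hX : ∀ k, Measurable (X k)) (hind : iIndepFun X P) (S : Set ℕ) :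
    Indep (sig X S) (sig X Sᶜ) P :=
  indep_iSup_of_disjoint (fun k => comap_le hX k) ((iIndepFun_iff_iIndep _ _ _).1 hind)
    disjoint_compl_right

lemma setIntegral_indep {m₁ m₂ : MeasurableSpace Ω} (h1 : m₁ ≤ mΩ) (h2 : m₂ ≤ mΩ)
    (hi : Indep m₁ m₂ P) {A : Set Ω} (hA : MeasurableSet[m₁] A) {F : Ω → ℝ} (hF : Measurable[m₂] F)
    (hFi : Integrable F P) : ∫ ω in A, F ω ∂P = P.real A * ∫ ω, F ω ∂P := by
  have h3 := condExp_indep_eq h2 h1 hF.stronglyMeasurable hi.symm
  rw [← setIntegral_condExp h1 hFi hA, setIntegral_congr_ae (h1 _ hA) (g := fun _ => ∫ ω, F ω ∂P)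
    (h3.mono fun ω hω _ => hω), setIntegral_const]
  rfl

/-- the event that the digits in `S` are `c` -/
def ev (X : ℕ → Ω → Fin a) (S : Finset ℕ) (c : S → Fin a) : Set Ω := {ω | ∀ k : S, X k ω = c k}

lemma ev_measurable (S : Finset ℕ) (c : S → Fin a) : MeasurableSet[sig X (S : Set ℕ)] (ev X S c) := by
  have h1 : ev X S c = ⋂ k : S, (X k) ⁻¹' {c k} := by
    ext ω; simp [ev]
  rw [h1]
  refine @MeasurableSet.iInter Ω S (sig X (S : Set ℕ)) _ _ fun k => ?_
  have h2 : MeasurableSpace.comap (X k) inferInstance ≤ sig X (S : Set ℕ) := by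
    refine le_iSup₂_of_le (k : ℕ) k.2 le_rfl
  exact h2 _ ⟨{c k}, MeasurableSet.singleton _, rfl⟩

lemma expect_le (ha : 2 ≤ a) (hX : ∀ k, Measurable (X k)) (hind : iIndepFun X P) (S : Finset ℕ)
    {q : ℝ} (hq : ∀ c : S → Fin a, P.real (ev X S c) ≤ q) {G : ℝ → ℝ} (hG : Measurable G)
    (hG0 : ∀ x, 0 ≤ G x) (hG1 : ∀ x, G x ≤ 1) {K : ℝ} (hK : ∀ y, ∑ c, G (y + dsum a S c) ≤ K) :
    ∫ ω, G (val a fun k => X k ω) ∂P ≤ q * K := by
  classical
  set Y : Ω → ℝ := fun ω => rest a S (fun k => X k ω) with hY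
  have hYm : Measurable[sig X ((S : Set ℕ)ᶜ)] Y := rest_measurable ha S
  have hF : ∀ c : S → Fin a, Measurable[sig X ((S : Set ℕ)ᶜ)] fun ω => G (Y ω + dsum a S c) :=
    fun c => hG.comp ((measurable_id.add_const _).comp hYm)
  have hFm : ∀ c : S → Fin a, Measurable fun ω => G (Y ω + dsum a S c) :=
    fun c => (hF c).mono (sig_le hX _) le_rfl
  have hFi : ∀ c : S → Fin a, Integrable (fun ω => G (Y ω + dsum a S c)) P := fun c =>
    Integrable.of_bound (hFm c).aestronglyMeasurable 1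
      (Eventually.of_forall fun ω => by
        rw [Real.norm_eq_abs, abs_of_nonneg (hG0 _)]; exact hG1 _)
  have hq0 : 0 ≤ q := by
    have hne : Nonempty (S → Fin a) := ⟨fun _ => ⟨0, by omega⟩⟩
    exact measureReal_nonneg.trans (hq (Classical.choice hne))
  have hpt : ∀ ω, G (val a fun k => X k ω) =
      ∑ c : S → Fin a, (ev X S c).indicator (fun ω => G (Y ω + dsum a S c)) ω := by
    intro ω
    rw [sum_eq_single (fun k : S => X k ω)]
    · rw [Set.indicator_of_mem (show ω ∈ ev X S (fun k : S => X k ω) from fun k => rfl),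
        val_split ha S]
    · intro c _ hc
      rw [Set.indicator_of_notMem]
      intro h
      exact hc (funext fun k => (h k).symm)
    · intro h
      exact absurd (mem_univ _) h
  calc ∫ ω, G (val a fun k => X k ω) ∂P
      = ∑ c : S → Fin a, ∫ ω, (ev X S c).indicator (fun ω => G (Y ω + dsum a S c)) ω ∂P := by
        rw [← integral_finsetSum]
        · exact integral_congr_ae (Eventually.of_forall hpt)
        · exact fun c _ => (hFi c).indicator (sig_le hX _ _ (ev_measurable S c))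
    _ = ∑ c : S → Fin a, P.real (ev X S c) * ∫ ω, G (Y ω + dsum a S c) ∂P := by
        refine sum_congr rfl fun c _ => ?_
        rw [integral_indicator (sig_le hX _ _ (ev_measurable S c))]
        exact setIntegral_indep (sig_le hX _) (sig_le hX _) (indep_sig hX hind _)
          (ev_measurable S c) (hF c) (hFi c)
    _ ≤ ∑ c : S → Fin a, q * ∫ ω, G (Y ω + dsum a S c) ∂P :=
        sum_le_sum fun c _ => mul_le_mul_of_nonneg_right (hq c) (integral_nonneg fun ω => hG0 _)
    _ = q * ∫ ω, ∑ c : S → Fin a, G (Y ω + dsum a S c) ∂P := by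
        rw [← mul_sum, integral_finsetSum]
        exact fun c _ => hFi c
    _ ≤ q * ∫ _, K ∂P := by
        refine mul_le_mul_of_nonneg_left ?_ hq0
        exact integral_mono (integrable_finsetSum _ fun c _ => hFi c) (integrable_const _)
          fun ω => hK (Y ω)
    _ = q * K := by simp

/-- The most likely value of the digit `k`. -/
lemma exists_mode (ha : 2 ≤ a) (P : Measure Ω) (X : ℕ → Ω → Fin a) :
    ∃ m : ℕ → Fin a, ∀ k j, P.real {ω | X k ω = j} ≤ P.real {ω | X k ω = m k} := by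
  have : Nonempty (Fin a) := ⟨⟨0, by omega⟩⟩
  have h : ∀ k, ∃ m : Fin a, ∀ j, P.real {ω | X k ω = j} ≤ P.real {ω | X k ω = m} := fun k =>
    Finite.exists_max fun j => P.real {ω | X k ω = j}
  choose m hm using h
  exact ⟨m, hm⟩

lemma mode_pos (hX : ∀ k, Measurable (X k)) {m : ℕ → Fin a}
    (hm : ∀ k j, P.real {ω | X k ω = j} ≤ P.real {ω | X k ω = m k}) (k : ℕ) :
    0 < P.real {ω | X k ω = m k} := by
  by_contra hcon
  have h0 : ∀ j, P.real {ω | X k ω = j} = 0 := fun j =>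
    le_antisymm ((hm k j).trans (not_lt.1 hcon)) measureReal_nonneg
  have h1 : (Set.univ : Set Ω) = ⋃ j : Fin a, {ω | X k ω = j} := by
    ext ω; simp
  have h2 : P Set.univ = 0 := by
    rw [h1]
    refine measure_iUnion_null fun j => ?_
    have := h0 j
    rwa [measureReal_def, ENNReal.toReal_eq_zero_iff, or_iff_left (measure_ne_top _ _)] at this
  rw [measure_univ] at h2
  exact one_ne_zero h2

lemma ev_le (hind : iIndepFun X P) {m : ℕ → Fin a}
    (hm : ∀ k j, P.real {ω | X k ω = j} ≤ P.real {ω | X k ω = m k}) (S : Finset ℕ)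
    (c : S → Fin a) : P.real (ev X S c) ≤ ∏ k ∈ S, P.real {ω | X k ω = m k} := by
  classical
  set f : ℕ → Set Ω := fun k => {ω | ∀ h : k ∈ S, X k ω = c ⟨k, h⟩} with hf
  have h1 : ev X S c = ⋂ k ∈ S, f k := by
    ext ω
    simp only [ev, hf, Set.mem_ofPred_eq, Set.mem_iInter]
    exact ⟨fun h k _ hk => h ⟨k, hk⟩, fun h k => h k k.2 k.2⟩
  have h2 : P (ev X S c) = ∏ k ∈ S, P (f k) := by
    rw [h1]
    refine hind.meas_biInter fun k hk => ?_
    refine ⟨{c ⟨k, hk⟩}, MeasurableSet.singleton _, ?_⟩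
    ext ω
    simp [hf, hk]
  rw [measureReal_def, h2, ENNReal.toReal_prod]
  refine prod_le_prod (fun k _ => ENNReal.toReal_nonneg) fun k hk => ?_
  have h3 : f k = {ω | X k ω = c ⟨k, hk⟩} := by
    ext ω; simp [hf, hk]
  rw [h3]
  exact hm k _

lemma prod_tendsto (hX : ∀ k, Measurable (X k)) (hind : iIndepFun X P)
    (hna : ∀ c : ℕ → Fin a, P {ω | ∀ k, X k ω = c k} = 0) (m : ℕ → Fin a) :
    Tendsto (fun n => ∏ k ∈ range n, P.real {ω | X k ω = m k}) atTop (𝓝 0) := by
  set B : ℕ → Set Ω := fun n => ⋂ k ∈ range n, {ω | X k ω = m k} with hB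
  have hBm : ∀ n, MeasurableSet (B n) := fun n => by
    refine Finset.measurableSet_biInter _ fun k _ => ?_
    exact hX k (MeasurableSet.singleton (m k))
  have h1 : ∀ n, P.real (B n) = ∏ k ∈ range n, P.real {ω | X k ω = m k} := by
    intro n
    rw [measureReal_def, hB]
    simp only
    rw [hind.meas_biInter (S := range n) (s := fun k => {ω | X k ω = m k})
      fun k _ => ⟨{m k}, MeasurableSet.singleton _, rfl⟩, ENNReal.toReal_prod]
    rfl
  have h2 : Antitone B := by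
    intro n n' hn ω hω
    simp only [hB, Set.mem_iInter, mem_range] at hω ⊢
    exact fun k hk => hω k (hk.trans_le hn)
  have h3 : ⋂ n, B n = {ω | ∀ k, X k ω = m k} := by
    ext ω
    simp only [hB, Set.mem_iInter, mem_range, Set.mem_ofPred_eq]
    exact ⟨fun h k => h (k + 1) k (Nat.lt_succ_self k), fun h _ k _ => h k⟩
  have h4 := tendsto_measure_iInter_atTop (μ := P) (fun n => (hBm n).nullMeasurableSet) h2
    ⟨0, measure_ne_top _ _⟩
  rw [h3, hna m] at h4
  have h5 := (ENNReal.tendsto_toReal ENNReal.zero_ne_top).comp h4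
  rw [ENNReal.toReal_zero] at h5
  refine h5.congr fun n => ?_
  rw [← h1 n]
  rfl

/-- Some residue class of places beyond `k₀` has small products. -/
lemma small_product (ha : 2 ≤ a) {q : ℕ → ℝ} (hq0 : ∀ k, 0 < q k)
    (hq : Tendsto (fun n => ∏ k ∈ range n, q k) atTop (𝓝 0)) (k₀ : ℕ) {δ : ℝ} (hδ : 0 < δ) :
    ∃ S : Finset ℕ, ∃ r : ℕ, (∀ k ∈ S, k % a = r) ∧ (∀ k ∈ S, k₀ ≤ k) ∧ ∏ k ∈ S, q k < δ := by
  classical
  by_contra hcon
  push Not at hcon
  have h1 : ∀ n, k₀ ≤ n → δ ^ a * ∏ k ∈ range k₀, q k ≤ ∏ k ∈ range n, q k := by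
    intro n hn
    have h2 : ∏ k ∈ range n, q k = (∏ k ∈ range k₀, q k) * ∏ k ∈ Ico k₀ n, q k :=
      (Finset.prod_range_mul_prod_Ico q hn).symm
    have h3 : ∏ k ∈ Ico k₀ n, q k = ∏ r ∈ range a, ∏ k ∈ (Ico k₀ n).filter (fun k => k % a = r), q k :=
      (prod_fiberwise_of_maps_to (fun k _ => mem_range.2 (Nat.mod_lt k (by omega))) q).symm
    have h4 : δ ^ a ≤ ∏ k ∈ Ico k₀ n, q k := by
      rw [h3]
      calc δ ^ a = ∏ _r ∈ range a, δ := by simp
        _ ≤ _ := prod_le_prod (fun _ _ => hδ.le) fun r _ =>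
            hcon _ r (fun k hk => (mem_filter.1 hk).2)
              (fun k hk => (mem_Ico.1 (mem_filter.1 hk).1).1)
    rw [h2, mul_comm]
    exact mul_le_mul_of_nonneg_left h4 (prod_nonneg fun k _ => (hq0 k).le)
  have h2 : 0 < δ ^ a * ∏ k ∈ range k₀, q k := mul_pos (pow_pos hδ _) (prod_pos fun k _ => hq0 k)
  have h3 := (hq.eventually_lt_const h2).and (eventually_ge_atTop k₀)
  obtain ⟨n, hn1, hn2⟩ := h3.exists
  exact absurd (h1 n hn2) (not_le.2 hn1)

/-- **The Weyl means tend to zero in mean square.** -/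
theorem expect_tendsto {b p : ℕ} (ha : 2 ≤ a) (hb : 2 ≤ b) (hp : p.Prime) (hpa : p ∣ a)
    (hpb : ¬ p ∣ b) (hX : ∀ k, Measurable (X k)) (hind : iIndepFun X P)
    (hna : ∀ c : ℕ → Fin a, P {ω | ∀ k, X k ω = c k} = 0) {h : ℤ} (hh : h ≠ 0) :
    Tendsto (fun N => ∫ ω, ‖weyl b h N (val a fun k => X k ω)‖ ^ 2 ∂P) atTop (𝓝 0) := by
  classical
  obtain ⟨k₀, hk₀⟩ := diff_bounded hp hpa ha hpb hb hh
  obtain ⟨m, hm⟩ := exists_mode ha P X
  have hq0 := mode_pos hX hm
  have hqt := prod_tendsto hX hind hna m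
  refine tendsto_order.2 ⟨fun ε hε => Eventually.of_forall fun N => hε.trans_le
    (integral_nonneg fun ω => by positivity), fun ε hε => ?_⟩
  obtain ⟨S, r, hS1, hS2, hS3⟩ := small_product ha hq0 hqt k₀ (half_pos hε)
  have hpair : ∀ c c' : S → Fin a, ∃ C : ℝ, c ≠ c' → ∀ N : ℕ,
      ‖∑ n ∈ range N, e (h * ((b : ℝ) ^ n * (dsum a S c - dsum a S c')))‖ ≤ C := by
    intro c c'
    by_cases hcc : c = c'
    · exact ⟨0, fun h => absurd hcc h⟩
    · obtain ⟨C, hC⟩ := hk₀ S r hS1 hS2 c c' hcc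
      exact ⟨C, fun _ => hC⟩
  choose Cf hCf using hpair
  set C : ℝ := ∑ c, ∑ c', |Cf c c'| with hC
  have hC0 : 0 ≤ C := sum_nonneg fun _ _ => sum_nonneg fun _ _ => abs_nonneg _
  have hCle : ∀ c c', Cf c c' ≤ C := fun c c' => (le_abs_self _).trans
    ((single_le_sum (f := fun c' => |Cf c c'|) (fun _ _ => abs_nonneg _) (mem_univ c')).trans
      (single_le_sum (f := fun c => ∑ c', |Cf c c'|)
        (fun _ _ => sum_nonneg fun _ _ => abs_nonneg _) (mem_univ c)))
  set D : ℝ := (Fintype.card (S → Fin a) : ℝ) ^ 2 * C with hD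
  have hD0 : 0 ≤ D := by positivity
  have hlim : Tendsto (fun N : ℕ => D / (N : ℝ)) atTop (𝓝 0) :=
    tendsto_const_div_atTop_nhds_zero_nat D
  filter_upwards [hlim.eventually_lt_const one_pos, eventually_gt_atTop 0] with N hN1 hN0
  have hbound : ∫ ω, ‖weyl b h N (val a fun k => X k ω)‖ ^ 2 ∂P ≤
      (∏ k ∈ S, P.real {ω | X k ω = m k}) * (1 + D / N) := by
    refine expect_le ha hX hind S (ev_le hind hm S)
      (G := fun x => ‖weyl b h N x‖ ^ 2) ((weyl_measurable b h N).norm.pow_const 2)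
      (fun x => by positivity) (fun x => pow_le_one₀ (norm_nonneg _) (weyl_norm_le _ _ _ _))
      (fun y => ?_)
    exact bessel b h hN0 (fun c : S → Fin a => dsum a S c) hC0
      (fun c c' hcc => (hCf c c' hcc N).trans (hCle c c')) y
  have hDN : 0 ≤ D / N := by positivity
  calc ∫ ω, ‖weyl b h N (val a fun k => X k ω)‖ ^ 2 ∂P
      ≤ (∏ k ∈ S, P.real {ω | X k ω = m k}) * (1 + D / N) := hbound
    _ < ε / 2 * (1 + D / N) := mul_lt_mul_of_pos_right hS3 (by linarith)
    _ ≤ ε / 2 * 2 := mul_le_mul_of_nonneg_left (by linarith) (half_pos hε).le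
    _ = ε := by ring

end

end Pool.Agent.TH382.FO
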