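import Mathlib

/-!
# Exponential sums along `b ^ n θ`, `θ` rational: bounded partial sums
-/

set_option autoImplicit false

namespace Pool.Agent.TH382.FO

open Finset

/-- `e θ = exp (2 π i θ)` -/
noncomputable def e (θ : ℝ) : ℂ := Complex.exp ((2 * Real.pi * θ : ℝ) * Complex.I)

lemma norm_e (θ : ℝ) : ‖e θ‖ = 1 := by
  unfold e; exact Complex.norm_exp_ofReal_mul_I _

lemma e_add (θ φ : ℝ) : e (θ + φ) = e θ * e φ := by
  unfold e
  rw [← Complex.exp_add]
  congr 1; push_cast; ring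

lemma e_zero : e 0 = 1 := by simp [e]

lemma e_int (k : ℤ) : e k = 1 := by
  unfold e
  rw [Complex.exp_eq_one_iff]
  exact ⟨k, by push_cast; ring⟩

lemma e_neg (θ : ℝ) : e (-θ) = (starRingEnd ℂ) (e θ) := by
  unfold e
  rw [← Complex.exp_conj]
  congr 1
  rw [map_mul, Complex.conj_ofReal, Complex.conj_I]
  push_cast; ring

lemma e_nsmul (θ : ℝ) (k : ℕ) : e (k * θ) = e θ ^ k := by
  induction k with
  | zero => simp [e_zero]
  | succ k ih => rw [pow_succ, ← ih, ← e_add]; congr 1; push_cast; ring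

lemma e_continuous : Continuous e := by
  unfold e; fun_prop

lemma e_measurable : Measurable e := e_continuous.measurable

/-- congruence modulo the integers -/
def Cong (θ φ : ℝ) : Prop := ∃ k : ℤ, θ = φ + k

lemma Cong.e_eq {θ φ : ℝ} (h : Cong θ φ) : e θ = e φ := by
  obtain ⟨k, rfl⟩ := h
  rw [e_add, e_int, mul_one]

/-- sum of a nontrivial character modulo `p` -/
lemma sum_char {p : ℕ} (hp : p.Prime) {w : ℤ} (hw : ¬ (p : ℤ) ∣ w) :
    ∑ k ∈ range p, e (k * ((w : ℝ) / p)) = 0 := by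
  have hp0 : (p : ℝ) ≠ 0 := by exact_mod_cast hp.ne_zero
  set z := e ((w : ℝ) / p) with hz
  have h1 : z ^ p = 1 := by
    rw [hz, ← e_nsmul]
    have : (p : ℝ) * ((w : ℝ) / p) = w := by field_simp
    rw [this, e_int]
  have h2 : z ≠ 1 := by
    intro h
    rw [hz] at h
    unfold e at h
    rw [Complex.exp_eq_one_iff] at h
    obtain ⟨k, hk⟩ := h
    apply hw
    have h3 : (((w : ℝ) / p : ℝ) : ℂ) = k := by
      have hpi : (2 * (Real.pi : ℂ) * Complex.I) ≠ 0 := Complex.two_pi_I_ne_zero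
      apply mul_left_cancel₀ hpi
      calc 2 * (Real.pi : ℂ) * Complex.I * (((w : ℝ) / p : ℝ) : ℂ)
          = ((2 * Real.pi * ((w : ℝ) / p) : ℝ) : ℂ) * Complex.I := by push_cast; ring
        _ = k * (2 * Real.pi * Complex.I) := hk
        _ = _ := by ring
    have h4 : (w : ℝ) / p = k := by exact_mod_cast h3
    rw [div_eq_iff hp0] at h4
    refine ⟨k, ?_⟩
    have h5 : (w : ℝ) = ((k * p : ℤ) : ℝ) := by rw [h4]; push_cast; ring
    have h6 : w = k * p := by exact_mod_cast h5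
    rw [h6]; ring
  have h3 : ∑ k ∈ range p, e (k * ((w : ℝ) / p)) = ∑ k ∈ range p, z ^ k :=
    sum_congr rfl fun k _ => by rw [e_nsmul]
  rw [h3, geom_sum_eq h2, h1, sub_self, zero_div]

/-- shift of a sum of numbers of absolute value one -/
lemma shift_sum (f : ℕ → ℂ) (hf : ∀ n, ‖f n‖ ≤ 1) (N m : ℕ) :
    ‖∑ n ∈ range N, f (n + m) - ∑ n ∈ range N, f n‖ ≤ 2 * m := by
  have h1 : ∑ n ∈ range (N + m), f n = ∑ n ∈ range m, f n + ∑ n ∈ range N, f (n + m) := by
    rw [add_comm N m, sum_range_add]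
    congr 1
    exact sum_congr rfl fun n _ => by rw [add_comm]
  have h2 : ∑ n ∈ range (N + m), f n = ∑ n ∈ range N, f n + ∑ n ∈ range m, f (N + n) := by
    rw [sum_range_add]
  have h3 : ∑ n ∈ range N, f (n + m) - ∑ n ∈ range N, f n =
      ∑ n ∈ range m, f (N + n) - ∑ n ∈ range m, f n := by
    have := h1.symm.trans h2
    linear_combination this
  rw [h3]
  refine (norm_sub_le _ _).trans ?_
  have h4 : ‖∑ n ∈ range m, f (N + n)‖ ≤ m := by
    refine (norm_sum_le _ _).trans ((sum_le_sum fun n _ => hf _).trans ?_)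
    simp
  have h5 : ‖∑ n ∈ range m, f n‖ ≤ m := by
    refine (norm_sum_le _ _).trans ((sum_le_sum fun n _ => hf _).trans ?_)
    simp
  linarith

/-- **Bounded partial sums.** If `b ^ n (b ^ T - 1) θ` is congruent modulo `1` to a fraction with
denominator exactly `p` for all `n ≥ n₀`, and `b ^ T ≡ 1 (mod p)`, then the sums of `e (b ^ n θ)` are
bounded. -/
lemma bounded_sum {p : ℕ} (hp : p.Prime) {b : ℕ} {θ : ℝ} {T n₀ : ℕ}
    (hT1 : (p : ℤ) ∣ (b : ℤ) ^ T - 1)
    (hT : ∀ n, n₀ ≤ n → ∃ w : ℤ, ¬ (p : ℤ) ∣ w ∧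
      Cong ((b : ℝ) ^ n * ((b : ℝ) ^ T - 1) * θ) ((w : ℝ) / p)) :
    ∃ C : ℝ, ∀ N : ℕ, ‖∑ n ∈ range N, e ((b : ℝ) ^ n * θ)‖ ≤ C := by
  have hp0 : (p : ℝ) ≠ 0 := by exact_mod_cast hp.ne_zero
  have hpos : (0 : ℝ) < p := by exact_mod_cast hp.pos
  set f : ℕ → ℂ := fun n => e ((b : ℝ) ^ n * θ) with hf
  have hf1 : ∀ n, ‖f n‖ ≤ 1 := fun n => (norm_e _).le
  -- the shifts
  have key : ∀ n, n₀ ≤ n → ∃ w : ℤ, ¬ (p : ℤ) ∣ w ∧ ∀ k : ℕ,
      f (n + k * T) = f n * e (k * ((w : ℝ) / p)) := by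
    intro n hn
    obtain ⟨w, hw, hc⟩ := hT n hn
    refine ⟨w, hw, fun k => ?_⟩
    -- b^n (b^(kT) - 1) θ ≡ k w / p
    have h1 : ∀ k : ℕ, Cong ((b : ℝ) ^ n * ((b : ℝ) ^ (k * T) - 1) * θ) (k * ((w : ℝ) / p)) := by
      intro k
      induction k with
      | zero => exact ⟨0, by simp⟩
      | succ k ih =>
        obtain ⟨i, hi⟩ := ih
        obtain ⟨j, hj⟩ := hc
        obtain ⟨g, hg⟩ := hT1
        -- b^T X ≡ ...
        have h2 : (b : ℝ) ^ n * ((b : ℝ) ^ ((k + 1) * T) - 1) * θ =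
            (b : ℝ) ^ T * ((b : ℝ) ^ n * ((b : ℝ) ^ (k * T) - 1) * θ) +
            (b : ℝ) ^ n * ((b : ℝ) ^ T - 1) * θ := by
          rw [add_mul, one_mul, pow_add]; ring
        have hg' : (b : ℝ) ^ T = 1 + p * g := by
          have : ((b : ℤ) ^ T : ℤ) = 1 + p * g := by linarith
          exact_mod_cast this
        refine ⟨g * k * w + (b : ℤ) ^ T * i + j, ?_⟩
        rw [h2, hi, hj]
        push_cast
        have h3 : (b : ℝ) ^ T * (k * ((w : ℝ) / p) + i) = k * ((w : ℝ) / p) + g * k * w +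
            (b : ℝ) ^ T * i := by
          rw [mul_add]
          congr 1
          rw [hg']
          field_simp
        rw [h3]
        ring
    have h2 := (h1 k).e_eq
    simp only [hf]
    rw [← h2, ← e_add]
    congr 1
    rw [pow_add]
    ring
  have h0 : ∀ n, n₀ ≤ n → ∑ k ∈ range p, f (n + k * T) = 0 := by
    intro n hn
    obtain ⟨w, hw, h⟩ := key n hn
    calc ∑ k ∈ range p, f (n + k * T) = ∑ k ∈ range p, f n * e (k * ((w : ℝ) / p)) :=
          sum_congr rfl fun k _ => h k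
      _ = 0 := by rw [← mul_sum, sum_char hp hw, mul_zero]
  refine ⟨(p * n₀ + ∑ k ∈ range p, 2 * ((k * T : ℕ) : ℝ)) / p, fun N => ?_⟩
  rw [le_div_iff₀ hpos]
  -- double sum
  have h1 : ‖∑ n ∈ range N, ∑ k ∈ range p, f (n + k * T)‖ ≤ p * n₀ := by
    calc ‖∑ n ∈ range N, ∑ k ∈ range p, f (n + k * T)‖
        ≤ ∑ n ∈ range N, ‖∑ k ∈ range p, f (n + k * T)‖ := norm_sum_le _ _
      _ ≤ ∑ n ∈ range N, (if n < n₀ then (p : ℝ) else 0) := by
          refine sum_le_sum fun n _ => ?_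
          split_ifs with hn
          · refine (norm_sum_le _ _).trans ((sum_le_sum fun k _ => hf1 _).trans ?_)
            simp
          · rw [h0 n (not_lt.1 hn), norm_zero]
      _ ≤ ∑ n ∈ range n₀, (p : ℝ) := by
          rw [← sum_filter]
          refine sum_le_sum_of_subset_of_nonneg ?_ fun _ _ _ => hpos.le
          intro n hn
          rw [mem_filter] at hn
          exact mem_range.2 hn.2
      _ = p * n₀ := by simp [mul_comm]
  have h2 : ∑ n ∈ range N, ∑ k ∈ range p, f (n + k * T) =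
      p * ∑ n ∈ range N, f n + ∑ k ∈ range p, (∑ n ∈ range N, f (n + k * T) -
        ∑ n ∈ range N, f n) := by
    rw [sum_comm, sum_sub_distrib, sum_const, card_range, nsmul_eq_mul]
    ring
  have h3 : ‖∑ k ∈ range p, (∑ n ∈ range N, f (n + k * T) - ∑ n ∈ range N, f n)‖ ≤
      ∑ k ∈ range p, 2 * ((k * T : ℕ) : ℝ) :=
    (norm_sum_le _ _).trans (sum_le_sum fun k _ => shift_sum f hf1 N (k * T))
  have h4 : (p : ℂ) * ∑ n ∈ range N, f n = ∑ n ∈ range N, ∑ k ∈ range p, f (n + k * T) -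
      ∑ k ∈ range p, (∑ n ∈ range N, f (n + k * T) - ∑ n ∈ range N, f n) := by
    rw [h2]; ring
  calc ‖∑ n ∈ range N, f n‖ * p = ‖(p : ℂ) * ∑ n ∈ range N, f n‖ := by
        rw [norm_mul, Complex.norm_natCast, mul_comm]
    _ ≤ _ := by
        rw [h4]
        refine (norm_sub_le _ _).trans ?_
        linarith

/-! ## Valuations of `b ^ T - 1` -/

/-- a number `B ≡ 1` modulo `p`, and modulo `4` if `p = 2`, with `B = b ^ (2 (p - 1))` -/
lemma base_one {p b : ℕ} (hp : p.Prime) (hpb : ¬ p ∣ b) (hb : 2 ≤ b) :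
    (p : ℤ) ∣ (b : ℤ) ^ (2 * (p - 1)) - 1 ∧ (p = 2 → (4 : ℤ) ∣ (b : ℤ) ^ (2 * (p - 1)) - 1) ∧
      (2 : ℤ) ≤ (b : ℤ) ^ (2 * (p - 1)) := by
  have hcop : Nat.Coprime b p := ((Nat.Prime.coprime_iff_not_dvd hp).2 hpb).symm
  refine ⟨?_, ?_, ?_⟩
  · have h1 : b ^ (p - 1) ≡ 1 [MOD p] := by
      have := Nat.ModEq.pow_totient hcop
      rwa [Nat.totient_prime hp] at this
    have h2 : b ^ (2 * (p - 1)) ≡ 1 [MOD p] := by
      have := h1.pow 2
      rwa [← pow_mul, one_pow, mul_comm (p - 1) 2] at this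
    have h3 := (Nat.modEq_iff_dvd.1 h2.symm)
    push_cast at h3
    exact h3
  · rintro rfl
    have hodd : Odd b := by
      rw [← Nat.not_even_iff_odd, even_iff_two_dvd]; exact hpb
    obtain ⟨k, rfl⟩ := hodd
    refine ⟨k ^ 2 + k, ?_⟩
    push_cast
    ring
  · have h1 : (2 : ℤ) ≤ b := by exact_mod_cast hb
    have h2 : 2 * (p - 1) ≠ 0 := by have := hp.two_le; omega
    calc (2 : ℤ) ≤ b := h1
      _ = (b : ℤ) ^ 1 := (pow_one _).symm
      _ ≤ (b : ℤ) ^ (2 * (p - 1)) := pow_le_pow_right₀ (by linarith) (by omega)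

/-- lifting the exponent: exact valuation of `B ^ k - 1` -/
lemma lte {p : ℕ} (hp : p.Prime) {B : ℤ} (hB1 : (p : ℤ) ∣ B - 1) (h4 : p = 2 → (4 : ℤ) ∣ B - 1)
    (k : ℕ) :
    emultiplicity (p : ℤ) (B ^ k - 1) = emultiplicity (p : ℤ) (B - 1) + emultiplicity p k := by
  have hpint : Prime (p : ℤ) := Nat.prime_iff_prime_int.1 hp
  have hnB : ¬ (p : ℤ) ∣ B := by
    intro h1
    have h2 : (p : ℤ) ∣ 1 := by
      have := dvd_sub h1 hB1
      simpa using this
    exact hpint.not_isUnit (isUnit_of_dvd_one h2)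
  rcases hp.eq_two_or_odd' with rfl | hodd
  · have := Int.two_pow_sub_pow' k (x := B) (y := 1) (h4 rfl) (by exact_mod_cast hnB)
    rw [one_pow] at this
    have h2 : emultiplicity ((2 : ℕ) : ℤ) (k : ℤ) = emultiplicity 2 k := Int.natCast_emultiplicity 2 k
    rw [← h2]
    exact_mod_cast this
  · have := Int.emultiplicity_pow_sub_pow hp hodd (x := B) (y := 1) hB1 hnB k
    rw [one_pow] at this
    exact this

end Pool.Agent.TH382.FO
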